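import Pool.Agent.H30HQ.Small

/-!
# Hofstadter's Q-sequence: one step forward from a value seven
-/

set_option autoImplicit false

namespace Pool.Agent.H84HQ

open Pool.Agent.HofQ Pool.Agent.H30HQ

variable {f : ℕ → ℕ}

/-- If `f (m + 2) = 7` is the first value at most seven after `n = 11`, in the situation of
`H30HQ.seven`, then `f (m + 1) = m - 9`: otherwise `f (m + 4)` is too large. -/
theorem forward (h : Sol f) {m : ℕ} (hm : 34 ≤ m)
    (hmin : ∀ j, 12 ≤ j → j < m + 2 → 8 ≤ f j) (h0 : f m = m) (h7 : f (m + 2) = 7)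
    (hA1 : m ≤ f (m + 1) + 9) (hA2 : f (m + 1) + 7 ≤ m)
    (ha1 : 9 ≤ f (m - 1)) (ha2 : f (m - 1) ≤ 11) (hc : m ≤ f (m - 3) + 6)
    {P : ℕ} (hP25 : 25 ≤ P) (hP : f (m - 2) + P + 1 = m) (hP8 : 8 ≤ f P) (hP10 : f P ≤ 10) :
    f (m + 1) + 9 = m := by
  by_contra hne
  have E1 := h.eqn (m + 1) (by omega)
  rw [show m + 1 - 1 = m by omega, show m + 1 - 2 = m - 1 by omega, h0,
    show m + 1 - m = 1 by omega, h.h1] at E1
  have le1 := h.le (m + 1 - f (m - 1)) (by omega)
  have E3 := h.eqn (m + 3) (by omega)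
  rw [show m + 3 - 1 = m + 2 by omega, show m + 3 - 2 = m + 1 by omega, h7,
    show m + 3 - 7 = m - 4 by omega] at E3
  have x : f (m + 3 - f (m + 1)) = 6 := by
    have : m + 3 - f (m + 1) = 10 ∨ m + 3 - f (m + 1) = 11 := by omega
    rcases this with hh | hh <;> rw [hh]
    · exact v10 h
    · exact v11 h
  rw [x] at E3
  have E4 := h.eqn (m + 4) (by omega)
  rw [show m + 4 - 1 = m + 3 by omega, show m + 4 - 2 = m + 2 by omega, h7, E3,
    show m + 4 - 7 = m - 3 by omega, show m + 4 - (f (m - 4) + 6) = m - 2 - f (m - 4) by omega] at E4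
  have le4 := h.le (m + 4) (by omega)
  have E2 := h.eqn (m - 2) (by omega)
  rw [show m - 2 - 1 = m - 3 by omega, show m - 2 - 2 = m - 4 by omega] at E2
  have Ea := h.eqn (m - 1) (by omega)
  rw [show m - 1 - 1 = m - 2 by omega, show m - 1 - 2 = m - 3 by omega,
    show m - 1 - f (m - 2) = P by omega] at Ea
  have Em := h.eqn m (by omega)
  rw [show m - f (m - 2) = P + 1 by omega, h0] at Em
  have leP := h.le (P + 1) (by omega)
  have gb := hmin (m - 2) (by omega) (by omega)
  have lc := h.le (m - 3) (by omega)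
  have ld := h.le (m - 4) (by omega)
  have hs : 12 ≤ m - 2 - f (m - 4) → 8 ≤ f (m - 2 - f (m - 4)) := fun h1 =>
    hmin _ h1 (by omega)
  have hs' : m - 2 - f (m - 4) ≤ 11 → f (m - 2 - f (m - 4)) ≤ 6 := by
    intro h1
    obtain ⟨k, hk⟩ : ∃ k, k = m - 2 - f (m - 4) := ⟨_, rfl⟩
    rw [← hk] at h1 ⊢
    have hk1 : 1 ≤ k := by omega
    have y1 := h.h1
    have y2 := h.h2
    have y3 := v3 h
    have y4 := v4 h
    have y5 := v5 h
    have y6 := v6 h
    have y7 := v7 h
    have y8 := v8 h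
    have y9 := v9 h
    have y10 := v10 h
    have y11 := v11 h
    interval_cases k <;> omega
  have hcase : m - 1 - f (m - 3) = 2 ∨ m - 1 - f (m - 3) = 3 ∨ m - 1 - f (m - 3) = 4 ∨
      m - 1 - f (m - 3) = 5 := by omega
  rcases hcase with hq | hq | hq | hq
  · rw [show m - 2 - f (m - 3) = 1 by omega, h.h1] at E2
    rcases Nat.lt_or_ge (m - 2 - f (m - 4)) 12 with h1 | h1
    · have := hs' (by omega)
      omega
    · have := hs h1
      omega
  · rw [show m - 2 - f (m - 3) = 2 by omega, h.h2] at E2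
    rw [hq, v3 h] at Ea
    rcases Nat.lt_or_ge (m - 2 - f (m - 4)) 12 with h1 | h1
    · have := hs' (by omega)
      omega
    · have h2 := hs h1
      have hb : f (m - 2) = 9 := by omega
      have ha : f (m - 1) = 10 := by omega
      have hP' : P = m - 10 := by omega
      subst hP'
      rw [ha] at Em
      rw [ha] at Ea
      omega
  · rw [hq, v4 h] at Ea
    omega
  · rw [hq, v5 h] at Ea
    omega

end Pool.Agent.H84HQ
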